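import Mathlib

/-!
# A strong law for sequences tending weakly to zero
-/

set_option autoImplicit false

open MeasureTheory Filter Topology Finset
open scoped BigOperators ENNReal

noncomputable section

namespace Pool.Agent.U317.SQ

variable {Ω : Type*} [MeasurableSpace Ω]

/-- bounded measurable functions are integrable on a probability space -/
theorem intB (P : Measure Ω) [IsProbabilityMeasure P] (f : Ω → ℝ) (C : ℝ)
    (hf : AEStronglyMeasurable f P) (hb : ∀ ω, |f ω| ≤ C) : Integrable f P :=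
  Integrable.of_bound hf C (Eventually.of_forall fun ω => by rw [Real.norm_eq_abs]; exact hb ω)

theorem var_le (P : Measure Ω) [IsProbabilityMeasure P]
    (X : ℕ → Ω → ℝ) (C : ℝ) (hX : ∀ i, AEStronglyMeasurable (X i) P) (hb : ∀ i ω, |X i ω| ≤ C)
    (hc : ∀ i j, i < j → |∫ ω, X i ω * X j ω ∂P| ≤ 1 / ((j : ℝ) + 1)) (N : ℕ) :
    ∫ ω, (∑ i ∈ range N, X i ω) ^ 2 ∂P ≤ (C ^ 2 + 2) * N := by
  have hC : ∀ i ω, |X i ω * X i ω| ≤ C ^ 2 := fun i ω => by
    rw [abs_mul, sq]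
    exact mul_le_mul (hb i ω) (hb i ω) (abs_nonneg _) ((abs_nonneg _).trans (hb i ω))
  have hm : ∀ N, AEStronglyMeasurable (fun ω => ∑ i ∈ range N, X i ω) P := fun N =>
    Finset.aestronglyMeasurable_fun_sum _ fun i _ => hX i
  have hbS : ∀ N ω, |∑ i ∈ range N, X i ω| ≤ N * C := fun N ω =>
    (abs_sum_le_sum_abs _ _).trans ((sum_le_sum fun i _ => hb i ω).trans (by simp))
  have hpair : ∀ i j, Integrable (fun ω => X i ω * X j ω) P := fun i j =>
    intB P _ (C * C) ((hX i).mul (hX j)) fun ω => by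
      rw [abs_mul]
      exact mul_le_mul (hb i ω) (hb j ω) (abs_nonneg _) ((abs_nonneg _).trans (hb i ω))
  have hSS : ∀ N, Integrable (fun ω => (∑ i ∈ range N, X i ω) ^ 2) P := fun N =>
    intB P _ ((N * C) ^ 2) ((hm N).pow 2) fun ω => by
      rw [abs_pow]
      exact pow_le_pow_left₀ (abs_nonneg _) (hbS N ω) 2
  induction N with
  | zero => simp
  | succ N ih =>
    have e : ∀ ω, (∑ i ∈ range (N + 1), X i ω) ^ 2 =
        (∑ i ∈ range N, X i ω) ^ 2 + (2 * ∑ i ∈ range N, X i ω * X N ω + X N ω * X N ω) := by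
      intro ω
      rw [sum_range_succ, ← sum_mul]
      ring
    have hI1 : Integrable (fun ω => 2 * ∑ i ∈ range N, X i ω * X N ω) P :=
      (integrable_finsetSum _ fun i _ => hpair i N).const_mul 2
    have h1 : ∫ ω, (∑ i ∈ range (N + 1), X i ω) ^ 2 ∂P = ∫ ω, (∑ i ∈ range N, X i ω) ^ 2 ∂P +
        (2 * ∑ i ∈ range N, ∫ ω, X i ω * X N ω ∂P + ∫ ω, X N ω * X N ω ∂P) := by
      refine (integral_congr_ae (Eventually.of_forall e)).trans
        ((integral_add (hSS N) (hI1.add (hpair N N))).trans ?_)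
      congr 1
      refine (integral_add hI1 (hpair N N)).trans ?_
      rw [integral_const_mul, integral_finsetSum _ fun i _ => hpair i N]
    have h2 : ∑ i ∈ range N, ∫ ω, X i ω * X N ω ∂P ≤ 1 := by
      calc ∑ i ∈ range N, ∫ ω, X i ω * X N ω ∂P ≤ ∑ i ∈ range N, 1 / ((N : ℝ) + 1) :=
            sum_le_sum fun i hi => (le_abs_self _).trans (hc i N (mem_range.1 hi))
        _ = N / ((N : ℝ) + 1) := by rw [sum_const, card_range, nsmul_eq_mul]; ring
        _ ≤ 1 := by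
          rw [div_le_one (by positivity)]
          linarith
    have h3 : ∫ ω, X N ω * X N ω ∂P ≤ C ^ 2 := by
      calc ∫ ω, X N ω * X N ω ∂P ≤ ∫ ω, C ^ 2 ∂P :=
            integral_mono (hpair N N) (integrable_const _) fun ω => (le_abs_self _).trans (hC N ω)
        _ = C ^ 2 := by simp
    rw [h1]
    push_cast
    linarith

theorem slln (P : Measure Ω) [IsProbabilityMeasure P]
    (X : ℕ → Ω → ℝ) (C : ℝ) (hX : ∀ i, AEStronglyMeasurable (X i) P) (hb : ∀ i ω, |X i ω| ≤ C)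
    (hc : ∀ i j, i < j → |∫ ω, X i ω * X j ω ∂P| ≤ 1 / ((j : ℝ) + 1)) :
    ∀ᵐ ω ∂P, Tendsto (fun N : ℕ => (∑ i ∈ range N, X i ω) / N) atTop (𝓝 0) := by
  set S : ℕ → Ω → ℝ := fun N ω => ∑ i ∈ range N, X i ω with hS
  have hm : ∀ N, AEStronglyMeasurable (S N) P := fun N =>
    Finset.aestronglyMeasurable_fun_sum _ fun i _ => hX i
  have hbS : ∀ N ω, |S N ω| ≤ N * C := fun N ω =>
    (abs_sum_le_sum_abs _ _).trans ((sum_le_sum fun i _ => hb i ω).trans (by simp))
  -- along squares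
  set Y : ℕ → Ω → ℝ := fun q ω => (S ((q + 1) ^ 2) ω / ((q + 1 : ℝ) ^ 2)) ^ 2 with hY
  have hYm : ∀ q, AEStronglyMeasurable (Y q) P := fun q => by
    simp only [hY, div_eq_mul_inv]
    exact ((hm _).mul_const _).pow 2
  have hYi : ∀ q, ∫⁻ ω, ENNReal.ofReal (Y q ω) ∂P ≤
      ENNReal.ofReal ((C ^ 2 + 2) * (1 / ((q + 1 : ℝ) ^ 2))) := by
    intro q
    have hint : Integrable (Y q) P := by
      refine intB P _ (C ^ 2) (hYm q) fun ω => ?_
      rw [hY]
      simp only [abs_pow, abs_div]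
      refine pow_le_pow_left₀ (by positivity) ?_ 2
      rw [abs_of_nonneg (by positivity : (0:ℝ) ≤ (q:ℝ) + 1), div_le_iff₀ (by positivity)]
      have := hbS ((q + 1) ^ 2) ω
      push_cast at this
      linarith
    rw [← ofReal_integral_eq_lintegral_ofReal hint (Eventually.of_forall fun ω => by
      simp only [hY, Pi.zero_apply]; positivity)]
    refine ENNReal.ofReal_le_ofReal ?_
    have e : ∀ ω, Y q ω = (1 / ((q + 1 : ℝ) ^ 4)) * (S ((q + 1) ^ 2) ω) ^ 2 := by
      intro ω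
      simp only [hY]
      field_simp
    simp_rw [e]
    rw [integral_const_mul]
    have h := var_le P X C hX hb hc ((q + 1) ^ 2)
    push_cast at h
    calc 1 / (q + 1 : ℝ) ^ 4 * ∫ ω, S ((q + 1) ^ 2) ω ^ 2 ∂P
        ≤ 1 / (q + 1 : ℝ) ^ 4 * ((C ^ 2 + 2) * (q + 1) ^ 2) :=
          mul_le_mul_of_nonneg_left h (by positivity)
      _ = (C ^ 2 + 2) * (1 / ((q + 1 : ℝ) ^ 2)) := by
        field_simp
  have hsum : ∑' q, ∫⁻ ω, ENNReal.ofReal (Y q ω) ∂P ≠ ⊤ := by
    have h1 : Summable fun q : ℕ => (C ^ 2 + 2) * (1 / ((q + 1 : ℝ) ^ 2)) := by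
      refine Summable.mul_left _ ?_
      have := (summable_nat_add_iff 1).2 (Real.summable_one_div_nat_pow.2 (by norm_num : 1 < 2))
      simpa using this
    refine ne_top_of_le_ne_top ?_ (ENNReal.tsum_le_tsum hYi)
    rw [← ENNReal.ofReal_tsum_of_nonneg (fun q => by positivity) h1]
    exact ENNReal.ofReal_ne_top
  have hae : ∀ᵐ ω ∂P, ∑' q, ENNReal.ofReal (Y q ω) < ⊤ := by
    rw [← lintegral_tsum fun q => (hYm q).aemeasurable.ennreal_ofReal] at hsum
    exact ae_lt_top' (AEMeasurable.tsum fun q => (hYm q).aemeasurable.ennreal_ofReal) hsum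
  filter_upwards [hae] with ω hω
  have hC0 : 0 ≤ C := (abs_nonneg _).trans (hb 0 ω)
  have hY0 : Tendsto (fun q => Y q ω) atTop (𝓝 0) := by
    have h1 := ENNReal.tendsto_atTop_zero_of_tsum_ne_top hω.ne
    have h2 := (ENNReal.tendsto_toReal ENNReal.zero_ne_top).comp h1
    refine (h2.congr fun q => ?_)
    simp only [Function.comp]
    exact ENNReal.toReal_ofReal (by simp only [hY]; positivity)
  have hA : Tendsto (fun q : ℕ => |S ((q + 1) ^ 2) ω| / ((q + 1 : ℝ) ^ 2)) atTop (𝓝 0) := by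
    have h1 := hY0.sqrt
    rw [Real.sqrt_zero] at h1
    refine h1.congr fun q => ?_
    simp only [hY]
    rw [Real.sqrt_sq_eq_abs, abs_div, abs_of_nonneg (by positivity : (0:ℝ) ≤ (q + 1 : ℝ) ^ 2)]
  have hB : Tendsto (fun q : ℕ => |S ((q + 1) ^ 2) ω| / ((q + 1 : ℝ) ^ 2) + 3 * C / (q + 1 : ℝ))
      atTop (𝓝 0) := by
    have h1 : Tendsto (fun q : ℕ => 3 * C / ((q : ℝ) + 1)) atTop (𝓝 0) := by
      have := (tendsto_one_div_add_atTop_nhds_zero_nat (𝕜 := ℝ)).const_mul (3 * C)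
      rw [mul_zero] at this
      refine this.congr fun q => by ring
    simpa using hA.add h1
  -- compare
  rw [tendsto_zero_iff_abs_tendsto_zero]
  have hq : Tendsto (fun N : ℕ => Nat.sqrt N - 1) atTop atTop := by
    refine tendsto_atTop.2 fun b => ?_
    filter_upwards [eventually_ge_atTop ((b + 1) ^ 2)] with N hN
    have : b + 1 ≤ Nat.sqrt N := by
      rw [Nat.le_sqrt, ← sq]
      exact hN
    omega
  refine squeeze_zero' (Eventually.of_forall fun N => abs_nonneg _) ?_ (hB.comp hq)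
  filter_upwards [eventually_ge_atTop 1] with N hN
  simp only [Function.comp]
  have hs1 : 1 ≤ Nat.sqrt N := by
    rw [Nat.le_sqrt]
    omega
  have hcast : ((Nat.sqrt N - 1 : ℕ) : ℝ) + 1 = (Nat.sqrt N : ℝ) := by
    have : Nat.sqrt N - 1 + 1 = Nat.sqrt N := by omega
    exact_mod_cast this
  have hnat : Nat.sqrt N - 1 + 1 = Nat.sqrt N := by omega
  rw [hcast, hnat]
  set s := Nat.sqrt N with hs
  have hsN : s ^ 2 ≤ N := Nat.sqrt_le' N
  have hNs : N < (s + 1) ^ 2 := Nat.lt_succ_sqrt' N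
  have hs0 : (1 : ℝ) ≤ s := by exact_mod_cast hs1
  have hd : |S N ω| ≤ |S (s ^ 2) ω| + ((N : ℝ) - (s : ℝ) ^ 2) * C := by
    have e : S N ω = S (s ^ 2) ω + ∑ i ∈ Ico (s ^ 2) N, X i ω := by
      simp only [hS]
      rw [← sum_range_add_sum_Ico _ hsN]
    rw [e]
    refine (abs_add_le _ _).trans (add_le_add le_rfl ?_)
    refine (abs_sum_le_sum_abs _ _).trans ((sum_le_sum fun i _ => hb i ω).trans ?_)
    rw [sum_const, Nat.card_Ico, nsmul_eq_mul, Nat.cast_sub hsN]
    push_cast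
    exact le_rfl
  have hN0 : (0 : ℝ) < N := by exact_mod_cast hN
  have hsN' : (s : ℝ) ^ 2 ≤ N := by exact_mod_cast hsN
  have hNs' : (N : ℝ) ≤ s ^ 2 + 2 * s := by
    have : N ≤ s ^ 2 + 2 * s := by nlinarith
    exact_mod_cast this
  rw [abs_div, abs_of_nonneg hN0.le]
  have h1 : |S N ω| / N ≤ (|S (s ^ 2) ω| + (2 * s) * C) / (s : ℝ) ^ 2 := by
    refine (div_le_div_of_nonneg_right (hd.trans (add_le_add le_rfl
      (mul_le_mul_of_nonneg_right (show (N : ℝ) - (s : ℝ) ^ 2 ≤ 2 * s by linarith) hC0)))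
      hN0.le).trans ?_
    refine div_le_div_of_nonneg_left (by positivity) (by positivity) hsN'
  refine h1.trans ?_
  rw [add_div]
  refine add_le_add le_rfl ?_
  rw [div_le_div_iff₀ (by positivity) (by positivity)]
  nlinarith [mul_nonneg hC0 (sq_nonneg (s : ℝ))]

/-- selection of a fast decorrelating subsequence, uniformly for countably many test functions -/
theorem selection (P : Measure Ω) [IsProbabilityMeasure P] (X : ℕ → ℕ → Ω → ℝ) (C : ℕ → ℝ) (j0 : ℕ)
    (hX : ∀ n j, j0 ≤ j → AEStronglyMeasurable (X n j) P) (hb : ∀ n j ω, |X n j ω| ≤ C n)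
    (hw : ∀ n, ∀ χ : Ω → ℝ, Integrable χ P → Tendsto (fun j => ∫ ω, χ ω * X n j ω ∂P) atTop (𝓝 0)) :
    ∃ k : ℕ → ℕ, StrictMono k ∧ (∀ i, j0 ≤ k i) ∧ ∀ n i j, i < j → n ≤ j →
      |∫ ω, X n (k i) ω * X n (k j) ω ∂P| ≤ 1 / ((j : ℝ) + 1) := by
  have hT : ∀ l j : ℕ, ∃ T : ℕ, ∀ j' ≥ T, ∀ i ∈ range (l + 1), j0 ≤ i → ∀ n ∈ range (j + 1),
      |∫ ω, X n i ω * X n j' ω ∂P| ≤ 1 / ((j : ℝ) + 1) := by
    intro l j
    have h : ∀ᶠ j' in atTop, ∀ i ∈ range (l + 1), ∀ n ∈ range (j + 1), j0 ≤ i →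
        |∫ ω, X n i ω * X n j' ω ∂P| ≤ 1 / ((j : ℝ) + 1) := by
      refine (eventually_all_finset _).2 fun i _ => (eventually_all_finset _).2 fun n _ => ?_
      by_cases hi : j0 ≤ i
      · have h1 := hw n (X n i) (intB P _ (C n) (hX n i hi) (hb n i))
        have h2 := h1.abs
        rw [abs_zero] at h2
        filter_upwards [h2.eventually (gt_mem_nhds (show (0 : ℝ) < 1 / ((j : ℝ) + 1) by positivity))]
          with j' hj' _ using hj'.le
      · exact Eventually.of_forall fun _ h => absurd h hi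
    obtain ⟨T, hT⟩ := eventually_atTop.1 h
    exact ⟨T, fun j' hj' i hi h0 n hn => hT j' hj' i hi n hn h0⟩
  choose T hT using hT
  let k : ℕ → ℕ := fun i => Nat.rec j0 (fun j kj => max (T kj (j + 1)) (kj + 1)) i
  have hk0 : k 0 = j0 := rfl
  have hks : ∀ j, k (j + 1) = max (T (k j) (j + 1)) (k j + 1) := fun j => rfl
  have hmono : StrictMono k := strictMono_nat_of_lt_succ fun j => by
    rw [hks]
    exact lt_of_lt_of_le (Nat.lt_succ_self _) (le_max_right _ _)
  have hge : ∀ i, j0 ≤ k i := fun i => hk0 ▸ hmono.monotone (Nat.zero_le i)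
  refine ⟨k, hmono, hge, fun n i j hij hn => ?_⟩
  obtain ⟨j', rfl⟩ : ∃ j', j = j' + 1 := ⟨j - 1, by omega⟩
  have h := hT (k j') (j' + 1) (k (j' + 1)) (by rw [hks]; exact le_max_left _ _) (k i)
    (mem_range.2 (Nat.lt_succ_of_le (hmono.monotone (by omega)))) (hge i) n
    (mem_range.2 (by omega))
  exact h

end Pool.Agent.U317.SQ
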